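import Mathlib
import Pool.Agent.H57.Code.Lp
import Pool.Agent.H64.Pent.Final

set_option autoImplicit false

/-!
An even subgraph without own matching edges whose word has weight three is a circuit of length five
(MP_a46c6f_co, full Q1: the last step).
-/

namespace Pool.Agent.H62.Q1

open SimpleGraph Pool.Agent.H5.Goddyn Pool.Agent.H98.TC Pool.Agent.H64.Pent Pool.Agent.H98.Code
open Pool.Agent.H57.Code

lemma z2c (a : ZMod 2) : a = 0 ∨ a = 1 := by revert a; decide

/-- the case of the letter `z` on the first circuit -/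
theorem five_aux {n : ℕ} (hn : 3 ≤ n) (p : Equiv.Perm (ZMod n)) (a b : ZMod n → ZMod 2)
    (g l l' : ZMod n)
    (hg : a g = 1) (hg' : a (g - 1) = 1) (hb : b (p g) = 0) (hb' : b (p g - 1) = 0)
    (hl : b (p l - 1) + b (p l) = 1)
    (h0 : ∀ i, i ≠ g → i ≠ l → i ≠ l' → a i = 0 ∧ a (i - 1) = 0 ∧ b (p i) = 0 ∧ b (p i - 1) = 0) :
    ∃ f, p (f + 2) = p f + 1 ∨ p (f + 2) = p f - 1 := by
  have one : (1 : ZMod n) ≠ 0 := by
    intro h
    have h1 : ((1 : ℕ) : ZMod n) = 0 := by exact_mod_cast h
    rw [ZMod.natCast_eq_zero_iff] at h1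
    have := Nat.le_of_dvd one_pos h1
    omega
  have two : (2 : ZMod n) ≠ 0 := by
    intro h
    have h1 : ((2 : ℕ) : ZMod n) = 0 := by exact_mod_cast h
    rw [ZMod.natCast_eq_zero_iff] at h1
    have := Nat.le_of_dvd two_pos h1
    omega
  -- the neighbours of `g` on the first circuit
  have e1 : g + 1 = l ∨ g + 1 = l' := by
    by_contra hc
    push Not at hc
    have := (h0 (g + 1) (fun h => one (by linear_combination h)) hc.1 hc.2).2.1
    rw [add_sub_cancel_right, hg] at this
    exact absurd this (by decide)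
  have e2 : g - 1 = l ∨ g - 1 = l' := by
    by_contra hc
    push Not at hc
    have := (h0 (g - 1) (fun h => one (by linear_combination -h)) hc.1 hc.2).1
    rw [hg'] at this
    exact absurd this (by decide)
  have e3 : g + 1 ≠ g - 1 := fun h => two (by linear_combination h)
  -- the edge of the second circuit at `p l`
  have e4 : p l' = p l + 1 ∨ p l' = p l - 1 := by
    rcases z2c (b (p l)) with h1 | h1
    · have h2 : b (p l - 1) = 1 := by rw [h1, add_zero] at hl; exact hl
      right
      have h3 : b (p (p.symm (p l - 1))) = 1 := by rw [Equiv.apply_symm_apply]; exact h2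
      have h4 : p.symm (p l - 1) = g ∨ p.symm (p l - 1) = l ∨ p.symm (p l - 1) = l' := by
        by_contra hc
        push Not at hc
        rw [(h0 _ hc.1 hc.2.1 hc.2.2).2.2.1] at h3
        exact absurd h3 (by decide)
      rcases h4 with h4 | h4 | h4
      · rw [h4, hb] at h3
        exact absurd h3 (by decide)
      · exfalso
        have h5 : p l - 1 = p l := by
          have := congrArg p h4
          rwa [Equiv.apply_symm_apply] at this
        exact one (by linear_combination -h5)
      · rw [← h4, Equiv.apply_symm_apply]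
    · left
      have h3 : b (p (p.symm (p l + 1)) - 1) = 1 := by
        rw [Equiv.apply_symm_apply, add_sub_cancel_right]; exact h1
      have h4 : p.symm (p l + 1) = g ∨ p.symm (p l + 1) = l ∨ p.symm (p l + 1) = l' := by
        by_contra hc
        push Not at hc
        rw [(h0 _ hc.1 hc.2.1 hc.2.2).2.2.2] at h3
        exact absurd h3 (by decide)
      rcases h4 with h4 | h4 | h4
      · rw [h4, hb'] at h3
        exact absurd h3 (by decide)
      · exfalso
        have h5 : p l + 1 = p l := by
          have := congrArg p h4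
          rwa [Equiv.apply_symm_apply] at this
        exact one (by linear_combination h5)
      · rw [← h4, Equiv.apply_symm_apply]
  refine ⟨g - 1, ?_⟩
  have e5 : g - 1 + 2 = g + 1 := by ring
  rw [e5]
  rcases e1 with h1 | h1 <;> rcases e2 with h2 | h2
  · exact absurd (h1.trans h2.symm) e3
  · rw [h1, h2]
    rcases e4 with h3 | h3
    · right; rw [h3]; ring
    · left; rw [h3]; ring
  · rw [h1, h2]
    exact e4
  · exact absurd (h1.trans h2.symm) e3

/-- an own-free side of a word of weight three with one letter `z` is a circuit of length five -/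
theorem pent_of_side {n : ℕ} (hn : 3 ≤ n) (p : Equiv.Perm (ZMod n)) (a b : ZMod n → ZMod 2)
    (hev : Ev p a b) (g l l' : ZMod n) (hz : word p a b g = z) (hl : (word p a b l).1 = 1)
    (h0 : ∀ i, i ≠ g → i ≠ l → i ≠ l' → word p a b i = 0 ∧ a i = 0) :
    (∃ f, p (f + 2) = p f + 1 ∨ p (f + 2) = p f - 1) ∨
      ∃ f, p.symm (f + 2) = p.symm f + 1 ∨ p.symm (f + 2) = p.symm f - 1 := by
  have z2s : ∀ c d : ZMod 2, c + d = 0 → d = 0 → c = 0 := by decide
  have hall : ∀ i, i ≠ g → i ≠ l → i ≠ l' →
      a i = 0 ∧ a (i - 1) = 0 ∧ b (p i) = 0 ∧ b (p i - 1) = 0 := by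
    intro i h1 h2 h3
    obtain ⟨h4, h5⟩ := h0 i h1 h2 h3
    have h6 : a (i - 1) + a i = 0 := congrArg Prod.fst h4
    have h7 : a i + b (p i) = 0 := congrArg Prod.snd h4
    have h8 : a (i - 1) = 0 := z2s _ _ h6 h5
    have h9 : b (p i) = 0 := by rw [h5, zero_add] at h7; exact h7
    have h10 := hev i
    rw [h8, h5, h9] at h10
    exact ⟨h5, h8, h9, by rw [add_zero, add_zero] at h10; exact h10.symm⟩
  have g1 : a (g - 1) + a g = 0 := congrArg Prod.fst hz
  have g2 : a g + b (p g) = 1 := congrArg Prod.snd hz
  have g3 : b (p g - 1) + b (p g) = 0 := by rw [← hev g]; exact g1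
  have hl1 : a (l - 1) + a l = 1 := hl
  have hl2 : b (p l - 1) + b (p l) = 1 := by rw [← hev l]; exact hl1
  rcases z2c (a g) with h1 | h1
  · right
    have h2 : b (p g) = 1 := by rw [h1, zero_add] at g2; exact g2
    have h3 : b (p g - 1) = 1 := by
      rw [h2] at g3
      revert g3
      generalize b (p g - 1) = c
      revert c; decide
    have h4 : a (g - 1) = 0 := z2s _ _ g1 h1
    refine five_aux hn p.symm b a (p g) (p l) (p l') h2 h3 ?_ ?_ ?_ ?_
    · rw [Equiv.symm_apply_apply]; exact h1
    · rw [Equiv.symm_apply_apply]; exact h4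
    · rw [Equiv.symm_apply_apply]; exact hl1
    · intro j k1 k2 k3
      have := hall (p.symm j) (fun h => k1 (by rw [← h, Equiv.apply_symm_apply]))
        (fun h => k2 (by rw [← h, Equiv.apply_symm_apply]))
        (fun h => k3 (by rw [← h, Equiv.apply_symm_apply]))
      rw [Equiv.apply_symm_apply] at this
      exact ⟨this.2.2.1, this.2.2.2, this.1, this.2.1⟩
  · left
    have h2 : a (g - 1) = 1 := by
      rw [h1] at g1
      revert g1
      generalize a (g - 1) = c
      revert c; decide
    have h3 : b (p g) = 0 := by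
      rw [h1] at g2
      revert g2
      generalize b (p g) = c
      revert c; decide
    have h4 : b (p g - 1) = 0 := z2s _ _ g3 h3
    exact five_aux hn p a b g l l' h1 h2 h3 h4 hl2 hall

variable {V : Type*}

/-- **the last step of Q1**: an own-free side of a word of weight three gives the Petersen pair. -/
theorem petersen_of_side [Finite V] (G : SimpleGraph V) (M C₁ C₂ : G.Subgraph)
    (h : IsPermutationGraph G M C₁ C₂) (hrem : ∀ C : G.Subgraph, ¬ Removable G (wt M) C) {n : ℕ}
    (hn : 3 ≤ n) (x y : ZMod n → V) (p : Equiv.Perm (ZMod n)) (hx : Numb C₁ x) (hy : Numb C₂ y)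
    (hM : ∀ i, M.Adj (x i) (y (p i))) (a b : ZMod n → ZMod 2)
    (hev : Ev p a b) (g l l' : ZMod n) (hz : word p a b g = z) (hl : (word p a b l).1 = 1)
    (h0 : ∀ i, i ≠ g → i ≠ l → i ≠ l' → word p a b i = 0 ∧ a i = 0) :
    IsPetersenPair G M := by
  rcases pent_of_side hn p a b hev g l l' hz hl h0 with h1 | h1
  · exact fin_both G M C₁ C₂ h hrem hn x y p hx hy hM h1
  · refine fin_both G M C₂ C₁ (swap' h) hrem hn y x p.symm hy hx (fun j => ?_) h1
    have h2 := (hM (p.symm j)).symm
    rwa [Equiv.apply_symm_apply] at h2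

end Pool.Agent.H62.Q1
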