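import Mathlib
import Pool.Agent.H62.Q1.Five
import Pool.Agent.H31.Q.Geo

set_option autoImplicit false

/-!
Goddyn's conjecture on critical contra pairs of permutation graphs (MP_a46c6f_co, full Q1): assembly.
-/

namespace Pool.Agent.H62.Q1

open SimpleGraph Pool.Agent.H5.Goddyn Pool.Agent.H98.TC Pool.Agent.H64.Pent Pool.Agent.H98.Code
open Pool.Agent.H57.Code Pool.Agent.H31.Q

/-- the code statement: a code with sides (no removable circuit) has a word of weight three with exactly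
one letter `z` and with a side without own edges -/
def EndSide : Prop :=
  ∀ (V : Type) [Fintype V] [DecidableEq V] (L : Submodule (ZMod 2) (V → K))
    (S : (V → K) → Finset V → Prop), IsCode L → (fun _ => z) ∈ L →
    (∀ u ∈ L, ZOnly u → u = 0 ∨ u = fun _ => z) → Sides L S → 5 ≤ Fintype.card V →
    Fintype.card V % 2 = 1 →
    ∃ (w : V → K) (g l l' : V), S w ∅ ∧ w g = z ∧ (w l).1 = 1 ∧
      ∀ i, i ≠ g → i ≠ l → i ≠ l' → w i = 0

/-- an own-free side in the sense of `SP` -/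
theorem petersen_of_SP {V : Type*} [Finite V] (G : SimpleGraph V) (M C₁ C₂ : G.Subgraph)
    (h : IsPermutationGraph G M C₁ C₂) (hrem : ∀ C : G.Subgraph, ¬ Removable G (wt M) C) {n : ℕ}
    (hn : 3 ≤ n) (x y : ZMod n → V) (p : Equiv.Perm (ZMod n)) (hx : Numb C₁ x) (hy : Numb C₂ y)
    (hM : ∀ i, M.Adj (x i) (y (p i))) {w : ZMod n → K} {g l l' : ZMod n} (hS : SP p w ∅)
    (hz : w g = z) (hl : (w l).1 = 1) (h0 : ∀ i, i ≠ g → i ≠ l → i ≠ l' → w i = 0) :
    IsPetersenPair G M := by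
  obtain ⟨a, b, hev, rfl, hY⟩ := hS
  refine petersen_of_side G M C₁ C₂ h hrem hn x y p hx hy hM a b hev g l l' hz hl ?_
  intro i h1 h2 h3
  have h4 := h0 i h1 h2 h3
  refine ⟨h4, ?_⟩
  rcases z2c (a i) with h5 | h5
  · exact h5
  · exfalso
    have h6 : a (i - 1) + a i = 0 := congrArg Prod.fst h4
    have h7 : a i + b (p i) = 0 := congrArg Prod.snd h4
    have two : ∀ c d : ZMod 2, c + d = 0 → d = 1 → c = 1 := by decide
    have two' : ∀ c d : ZMod 2, c + d = 0 → c = 1 → d = 1 := by decide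
    have h8 := two _ _ h6 h5
    have h9 := two' _ _ h7 h5
    have h10 : b (p i - 1) + b (p i) = 0 := by rw [← hev i]; exact h6
    have h11 := two _ _ h10 h9
    exact absurd ((hY i).2 ⟨h8, h5, h11, h9⟩) (Finset.notMem_empty i)

theorem main_of (hE : EndSide) {V : Type*} [Finite V] (G : SimpleGraph V) (M C₁ C₂ : G.Subgraph)
    (h : IsPermutationGraph G M C₁ C₂) (hcrit : IsCriticalContraPair G (wt M)) :
    IsPetersenPair G M := by
  obtain ⟨n, x, y, p, hn, hx, hy, hM⟩ := Pool.Agent.H61.Pent.exists_numb G M C₁ C₂ h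
  have hC : Crit p := Pool.Agent.H59.Pent.crit_of_removable G M C₁ C₂ h hcrit.2 hn x y p hx hy hM
  have hnz : NeZero n := ⟨by omega⟩
  have h5 := Pool.Agent.H73.Pent.big hn p hC
  have hodd := Pool.Agent.H73.Pent.odd_of_crit hn p hC
  have hc : Fintype.card (ZMod n) = n := ZMod.card n
  obtain ⟨w, g, l, l', hS, hz, hl, h0⟩ := hE (ZMod n) (Lp p) (SP p) (isCode p) (z_mem p) (zonly p)
    (sides p hC) (by rw [hc]; exact h5) (by rw [hc]; exact hodd)
  exact petersen_of_SP G M C₁ C₂ h hcrit.2 hn x y p hx hy hM hS hz hl h0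

end Pool.Agent.H62.Q1
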