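import Pool.Agent.H73.P4.RS2
import Pool.Agent.H7.Q.Glue

set_option autoImplicit false

/-!
The rooted minors of a code with sides are codes of trees (MP_a46c6f_co, full Q1): assembly of rows (B)
and (C).
-/

namespace Pool.Agent.H62.Q1

open Pool.Agent.H98.Code Pool.Agent.H45.TR Pool.Agent.H7.Q

theorem tree_of (hB : RowB) {V : Type} [Fintype V] [DecidableEq V]
    {L : Submodule (ZMod 2) (V → K)} {e : V} {D : V → K} {P Q : Finset (Finset V)}
    {h : Finset V → V} (hL : IsCode L) (hP : Parts L e D P) (hQ : Q ⊆ P)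
    (hl : ∀ v, v ≠ e → (D v).1 = 1) (hh : ∀ M ∈ Q, h M ∈ M) (heW : ∀ M ∈ Q, e ∉ M)
    {S : (V → K) → Finset V → Prop} (hS : Pool.Agent.H31.Q.Sides L S)
    (hz : NoZ (N L D Q h)) : (graph (N L D Q h)).IsTree :=
  isTree_of_rsides hB (Pool.Agent.H45.TR.isCode hL hP hQ hl) hz
    (Pool.Agent.H73.P4.rsides' hL hP hQ hl hh heW hS)

end Pool.Agent.H62.Q1
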