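import Pool.Agent.H62.Q1.Asm
import Pool.Agent.H62.Q1.Tree
import Pool.Agent.H16.FQ.Adapt
import Pool.Agent.H16.FQ.Cov
import Pool.Agent.H95.End.Leaf

set_option autoImplicit false

/-!
Full Q1 (MP_a46c6f_co): rows (A), (C), (D), (E), (F), (G) put together; only row (B) is a hypothesis.
-/

namespace Pool.Agent.H62.Q1

open SimpleGraph Pool.Agent.H5.Goddyn Pool.Agent.H98.TC Pool.Agent.H64.Pent Pool.Agent.H98.Code
open Pool.Agent.H57.Code Pool.Agent.H31.Q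

theorem sides_end {V : Type} {L : Submodule (ZMod 2) (V → K)} {S : (V → K) → Finset V → Prop}
    (hS : Sides L S) : Pool.Agent.H95.End.Sides L S := by
  refine ⟨fun u Y h => (hS.mem u Y h).1, fun u Y h => (hS.mem u Y h).2, hS.ex, ?_, ?_⟩
  · intro u Y h
    obtain ⟨Y', h1, h2⟩ := hS.compl u Y h
    exact ⟨Y', h1, fun v hv => ⟨fun h3 => ((h2 v).1 h3).2, fun h3 => (h2 v).2 ⟨hv, h3⟩⟩⟩
  · intro u Y h u' hu' hle
    obtain ⟨k, _, h1, h2, h3, ⟨Y₁, h4, h5⟩, Y₂, h6, h7⟩ := hS.part u Y h u' hu' hle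
    refine ⟨k, Y₁, Y₂, h5, ?_, h4, h6, h1, h2, h3⟩
    rw [add_comm]
    exact h7

theorem endSide_of (hB : Pool.Agent.H7.Q.RowB) : EndSide := by
  intro V _ _ L S hL hz1 hz hS hcard _
  classical
  have hiso := hL.iso
  have key : ∃ g a b : V, ∃ c : V → K, a ≠ b ∧ a ≠ g ∧ b ≠ g ∧ S c ∅ ∧ c g = z ∧ (c a).1 = 1 ∧
      (c b).1 = 1 ∧ ∀ v, v ≠ g → v ≠ a → v ≠ b → c v = 0 := by
    refine Pool.Agent.H16.FQ.adapt hL hz1 hz (by omega)
      (fun u hu hu0 huz h => Pool.Agent.H16.FQ.wc_of_sides hS u hu hu0 huz h)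
      (fun e D' h1 h2 u hu hu0 hue =>
        Pool.Agent.H16.FQ.cov_of_sides hS hiso e D' h1 h2 u hu hu0 hue) ?_ ?_
    · intro e D P M0 t h _ _ hP hM0 _ ht h1 h2
      have hQ : P.erase M0 ⊆ P := Finset.erase_subset _ _
      exact tree_of hB hL (Pool.Agent.H16.FQ.toParts hP) hQ h.letter ht
        (fun M hM => (hP.mem M (hQ hM)).2.1) hS h2
    · intro e D P M0 h _ _ hP hM0 hmax _ hgz y hy leaf hr
      exact Pool.Agent.H95.End.own_free (sides_end hS) hiso hz1 h.noz h.letter hP hM0 hmax hgz y hy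
        leaf hr
  obtain ⟨g, a, b, c, _, _, _, h1, h2, h3, _, h4⟩ := key
  exact ⟨c, g, a, b, h1, h2, h3, h4⟩

theorem main_of_rowB (hB : Pool.Agent.H7.Q.RowB) {V : Type*} [Finite V] (G : SimpleGraph V)
    (M C₁ C₂ : G.Subgraph) (h : IsPermutationGraph G M C₁ C₂)
    (hcrit : IsCriticalContraPair G (wt M)) : IsPetersenPair G M :=
  main_of (endSide_of hB) G M C₁ C₂ h hcrit

end Pool.Agent.H62.Q1
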