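import Pool.Agent.H62.Q1.EndS
import Pool.Agent.H81.Q.Tree

set_option autoImplicit false

/-!
Goddyn's conjecture on permutation graphs (MP_a46c6f_co, Q1): the only critical contra pair of a
permutation graph is the Petersen pair.
-/

namespace Pool.Agent.H62.Q1

open SimpleGraph Pool.Agent.H5.Goddyn Pool.Agent.H98.TC Pool.Agent.H64.Pent Pool.Agent.H98.Code

theorem rowB : Pool.Agent.H7.Q.RowB := fun _ _ _ _ _ _ _ _ hH hS =>
  Pool.Agent.H81.Q.exists_matrix_of_sides hH hS

/-- **Goddyn's conjecture on permutation graphs**: a critical contra pair of a permutation graph is the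
Petersen pair. -/
theorem goddyn {V : Type*} [Finite V] (G : SimpleGraph V) (M C₁ C₂ : G.Subgraph)
    (h : IsPermutationGraph G M C₁ C₂) (hcrit : IsCriticalContraPair G (wt M)) :
    IsPetersenPair G M := main_of_rowB rowB G M C₁ C₂ h hcrit

end Pool.Agent.H62.Q1
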